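import Mathlib
import Pool.Agent.R831.PermIdeal

/-!
# Permanental ideals of generic and symmetric matrices are not prime unless `t = m = n`

Let `2 ≤ t ≤ min (m, n)`, not `t = m = n`, and let `k` be a field with `2 ≠ 0` in `k` (in
particular, any field of odd characteristic). The ideal generated by the permanents of the `t × t`
submatrices is not prime, for an `m × n` matrix of variables in which equal variables occur at most
in transposed positions. The generic and the symmetric matrices are of this kind.

Idea: take `t` columns and one further column `w`, in `t` rows. If `Q` is the matrix of the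
permanental cofactors of the `t × t` block, then `w Q` has its entries in the ideal, so that
`det (Q) w` does. But `det Q` is not in the ideal: it does not vanish at the symmetric `t × t` matrix
with permanent zero which has the rows and columns `e_i + e_1` (`i ≥ 2`) and the first column
`(1 - t, 1, …, 1)`; there `det Q ≠ 0`.
-/

set_option autoImplicit false

namespace Pool.Agent.Results.MP_9bc296_ag.GenericSymmetric

open Matrix

/-- The ideal `P_t(X)` generated by the permanents of all `t × t` submatrices of `X`. -/
def permIdeal {R : Type*} [CommRing R] {m n : ℕ} (t : ℕ) (X : Matrix (Fin m) (Fin n) R) :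
    Ideal R :=
  Ideal.span {x | ∃ (r : Fin t ↪o Fin m) (c : Fin t ↪o Fin n), x = (X.submatrix r c).permanent}

/-- The entry at the position `(i, j)` is the variable with the name `f i j`; equal variables occur
at most in transposed positions. -/
def AtMostSymmetric {m n : ℕ} {σ : Type*} (f : Fin m → Fin n → σ) : Prop :=
  ∀ i j i' j', f i j = f i' j' →
    (i.val = i'.val ∧ j.val = j'.val) ∨ (i.val = j'.val ∧ j.val = i'.val)

/-- The matrix of the variables `f i j`, with entries in the polynomial ring over `k`. -/
noncomputable def varMatrix (k : Type*) [Field k] {m n : ℕ} {σ : Type*} (f : Fin m → Fin n → σ) :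
    Matrix (Fin m) (Fin n) (MvPolynomial σ k) :=
  Matrix.of fun i j => MvPolynomial.X (f i j)

/-- the generic matrix is of this kind -/
theorem generic (m n : ℕ) : AtMostSymmetric (fun (i : Fin m) (j : Fin n) => (i, j)) := by
  intro i j i' j' h
  rw [Prod.mk.injEq] at h
  exact Or.inl ⟨congrArg _ h.1, congrArg _ h.2⟩

/-- the symmetric matrix is of this kind -/
theorem symmetric (n : ℕ) : AtMostSymmetric (fun (i : Fin n) (j : Fin n) => s(i, j)) := by
  intro i j i' j' h
  rw [Sym2.eq_iff] at h
  rcases h with ⟨h1, h2⟩ | ⟨h1, h2⟩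
  · exact Or.inl ⟨congrArg _ h1, congrArg _ h2⟩
  · exact Or.inr ⟨congrArg _ h1, congrArg _ h2⟩

lemma permIdeal_eq {R : Type*} [CommRing R] {m n t : ℕ} (X : Matrix (Fin m) (Fin n) R) :
    permIdeal t X = Pool.Agent.R831.PermIdeal.permIdeal t X := rfl

open Pool.Agent.R831 in
lemma aux {k σ : Type*} [Field k] (h2 : (2 : k) ≠ 0) {m n t : ℕ} (ht : 2 ≤ t)
    (hm : t ≤ m) (hn : t < n) (f : Fin m → Fin n → σ) (hf : AtMostSymmetric f) :
    ¬ (permIdeal t (varMatrix k f)).IsPrime := by
  classical
  let Y : ℕ → ℕ → k := fun a b => if h : a < t ∧ b < t then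
    Perm.N0 k (⟨0, by omega⟩ : Fin t) ⟨a, h.1⟩ ⟨b, h.2⟩ else 0
  have hY : ∀ a b, Y a b = Y b a := by
    intro a b
    by_cases h : a < t ∧ b < t
    · simp only [Y]
      rw [dif_pos h, dif_pos h.symm, Perm.N0_symm]
    · simp only [Y]
      rw [dif_neg h, dif_neg fun h' => h h'.symm]
  let y : σ → k := fun v => if h : ∃ p : Fin m × Fin n, f p.1 p.2 = v then
    Y (Classical.choose h).1.val (Classical.choose h).2.val else 0
  have hy : ∀ i j, y (f i j) = Y i.val j.val := by
    intro i j
    have hex : ∃ p : Fin m × Fin n, f p.1 p.2 = f i j := ⟨(i, j), rfl⟩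
    simp only [y]
    rw [dif_pos hex]
    rcases hf _ _ _ _ (Classical.choose_spec hex) with ⟨h1, h2⟩ | ⟨h1, h2⟩
    · rw [h1, h2]
    · rw [h1, h2, hY]
  rw [permIdeal_eq]
  exact PermIdeal.not_prime_pattern h2 ht hm hn f y fun i j => hy i j

/-- Let `k` be a field in which `2 ≠ 0`. For `2 ≤ t ≤ min (m, n)`, not `t = m = n`, the ideal
generated by the permanents of the `t × t` submatrices of an `m × n` matrix of variables, in which
equal variables occur at most in transposed positions, is not prime. -/
theorem result (k : Type*) [Field k] (h2 : (2 : k) ≠ 0) (m n t : ℕ) (ht : 2 ≤ t) (hm : t ≤ m)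
    (hn : t ≤ n) (hne : ¬ (t = m ∧ t = n)) (σ : Type*) (f : Fin m → Fin n → σ)
    (hf : AtMostSymmetric f) : ¬ (permIdeal t (varMatrix k f)).IsPrime := by
  rcases Nat.lt_or_ge t n with h | h
  · exact aux h2 ht hm h f hf
  · have hm' : t < m := by omega
    have := aux (k := k) h2 ht hn hm' (fun i j => f j i) (by
      intro i j i' j' h
      rcases hf _ _ _ _ h with ⟨h1, h2⟩ | ⟨h1, h2⟩
      · exact Or.inl ⟨h2, h1⟩
      · exact Or.inr ⟨h2, h1⟩)
    rwa [permIdeal_eq, ← Pool.Agent.R831.PermIdeal.permIdeal_transpose, ← permIdeal_eq] at this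

end Pool.Agent.Results.MP_9bc296_ag.GenericSymmetric
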